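import Mathlib
import Pool.Agent.H451R5.AIStmts

set_option autoImplicit false

open MeasureTheory Filter Topology Set

namespace Pool.Agent.H134R3.KC

open Pool.Agent.H451R5.AI

lemma deriv_aux (m : ℕ) (hm : 1 ≤ m) (y : ℝ) :
    HasDerivAt (fun y : ℝ => -(m : ℝ) / (1 + y ^ (2 * m)))
      (2 * (m : ℝ) ^ 2 * y ^ (2 * m - 1) / (1 + y ^ (2 * m)) ^ 2) y := by
  have hpos : (1 + y ^ (2 * m)) ≠ 0 := by
    have : 0 ≤ y ^ (2 * m) := by rw [pow_mul]; positivity
    positivity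
  have h1 : HasDerivAt (fun y : ℝ => 1 + y ^ (2 * m)) (((2 * m : ℕ) : ℝ) * y ^ (2 * m - 1)) y := by
    simpa using (hasDerivAt_pow (2 * m) y).const_add 1
  have h2 : HasDerivAt (fun y : ℝ => -(m : ℝ) / (1 + y ^ (2 * m)))
      ((0 * (1 + y ^ (2 * m)) - -(m : ℝ) * (((2 * m : ℕ) : ℝ) * y ^ (2 * m - 1))) /
        (1 + y ^ (2 * m)) ^ 2) y := (hasDerivAt_const y (-(m : ℝ))).div h1 hpos
  refine h2.congr_deriv ?_
  push_cast
  congr 1
  ring

lemma tend_aux (m : ℕ) (hm : 1 ≤ m) :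
    Tendsto (fun y : ℝ => -(m : ℝ) / (1 + y ^ (2 * m))) atTop (𝓝 0) := by
  refine Tendsto.div_atTop tendsto_const_nhds ?_
  exact tendsto_atTop_add_const_left _ _ (tendsto_pow_atTop (by omega))

lemma nonneg_aux (m : ℕ) (y : ℝ) (hy : 0 ≤ y) :
    0 ≤ 2 * (m : ℝ) ^ 2 * y ^ (2 * m - 1) / (1 + y ^ (2 * m)) ^ 2 := by
  positivity

theorem taskKC : TaskKC := by
  intro m hm
  set f : ℝ → ℝ := fun r => (2 * Real.pi)⁻¹ * (2 * (m : ℝ) ^ 2 * r ^ (2 * m - 2) / (1 + r ^ (2 * m)) ^ 2) with hf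
  have hrho : rho m = fun z : ℂ => f ‖z‖ := rfl
  have hdim : Module.finrank ℝ ℂ = 2 := Complex.finrank_real_complex
  have hcong : ∀ y ∈ Ioi (0 : ℝ), y ^ (Module.finrank ℝ ℂ - 1) • f y =
      (2 * Real.pi)⁻¹ * (2 * (m : ℝ) ^ 2 * y ^ (2 * m - 1) / (1 + y ^ (2 * m)) ^ 2) := by
    intro y hy
    rw [hdim, hf]
    simp only [smul_eq_mul]
    have h3 : y ^ (2 * m - 1) = y ^ (2 - 1) * y ^ (2 * m - 2) := by
      rw [← pow_add]; congr 1; omega
    rw [h3]; ring
  have hint := integrableOn_Ioi_deriv_of_nonneg' (a := 0) (fun y _ => deriv_aux m hm y)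
    (fun y hy => nonneg_aux m y (le_of_lt hy)) (tend_aux m hm)
  have hval := integral_Ioi_of_hasDerivAt_of_nonneg' (a := 0) (fun y _ => deriv_aux m hm y)
    (fun y hy => nonneg_aux m y (le_of_lt hy)) (tend_aux m hm)
  rw [hrho]
  constructor
  · rw [integrable_fun_norm_addHaar]
    exact IntegrableOn.congr_fun (Integrable.const_mul hint ((2 * Real.pi)⁻¹))
      (fun y hy => (hcong y hy).symm) measurableSet_Ioi
  · rw [integral_fun_norm_addHaar, setIntegral_congr_fun measurableSet_Ioi hcong,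
      integral_const_mul, hval, hdim]
    have hball : (volume : Measure ℂ).real (Metric.ball 0 1) = Real.pi := by
      rw [Measure.real, Complex.volume_ball]
      simp
    rw [hball]
    have h0 : (0 : ℝ) ^ (2 * m) = 0 := zero_pow (by omega)
    rw [h0]
    have hpi := Real.pi_ne_zero
    simp
    field_simp

end Pool.Agent.H134R3.KC
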