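import Pool.Agent.H181R5.NLT.Stmts

set_option autoImplicit false

namespace Pool.Agent.H134R3.NLT

open Finset Pool.Agent.H181R5.NLT

section

variable {V : Type} [DecidableEq V]

open Classical in
/-- breadth-first search -/
noncomputable def R (D : V → V → Prop) (S : Finset V) (a : V) : ℕ → Finset V
  | 0 => {a}
  | i + 1 => R D S a i ∪ S.filter (fun v => ∃ w ∈ R D S a i, D w v)

open Classical in
theorem R_sub (D : V → V → Prop) (S : Finset V) (a : V) (ha : a ∈ S) : ∀ i, R D S a i ⊆ S
  | 0 => by simpa [R] using ha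
  | i + 1 => by
    rw [R]
    exact union_subset (R_sub D S a ha i) (filter_subset _ _)

theorem R_succ (D : V → V → Prop) (S : Finset V) (a : V) (i : ℕ) : R D S a i ⊆ R D S a (i + 1) := by
  conv_rhs => rw [R]
  exact subset_union_left

theorem R_mono (D : V → V → Prop) (S : Finset V) (a : V) {i j : ℕ} (h : i ≤ j) :
    R D S a i ⊆ R D S a j := by
  induction j, h using Nat.le_induction with
  | base => exact Subset.rfl
  | succ j _ ih => exact ih.trans (R_succ D S a j)

open Classical in
theorem mem_succ (D : V → V → Prop) (S : Finset V) (a : V) {i : ℕ} {v w : V} (hv : v ∈ S)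
    (hw : w ∈ R D S a i) (h : D w v) : v ∈ R D S a (i + 1) := by
  rw [R]
  exact mem_union_right _ (mem_filter.2 ⟨hv, w, hw, h⟩)

open Classical in
theorem walk (D : V → V → Prop) (S : Finset V) (a : V) (n : ℕ) : ∀ v, v ∈ R D S a n →
    (∀ m < n, v ∉ R D S a m) → ∃ p : ℕ → V, p 0 = a ∧ p n = v ∧
      (∀ t < n, D (p t) (p (t + 1))) ∧ ∀ t ≤ n, p t ∈ R D S a t ∧ ∀ m < t, p t ∉ R D S a m := by
  induction n with
  | zero =>
    intro v hv _
    have : v = a := by simpa [R] using hv
    subst this
    exact ⟨fun _ => v, rfl, rfl, fun t ht => absurd ht (Nat.not_lt_zero t), fun t ht => by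
      obtain rfl : t = 0 := Nat.le_zero.1 ht
      exact ⟨hv, fun m hm => absurd hm (Nat.not_lt_zero m)⟩⟩
  | succ n ih =>
    intro v hv hmin
    have hvn : v ∉ R D S a n := hmin n (Nat.lt_succ_self n)
    have hv' := hv
    rw [R, mem_union, mem_filter] at hv'
    obtain ⟨hvS, w, hw, hwv⟩ : v ∈ S ∧ ∃ w ∈ R D S a n, D w v := by
      rcases hv' with h | h
      · exact absurd h hvn
      · exact h
    have hwmin : ∀ m < n, w ∉ R D S a m := by
      intro m hm hwm
      exact hmin (m + 1) (by omega) (mem_succ D S a hvS hwm hwv)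
    obtain ⟨p, p0, pn, pD, pR⟩ := ih w hw hwmin
    refine ⟨fun t => if t ≤ n then p t else v, ?_, ?_, ?_, ?_⟩
    · simp [p0]
    · simp
    · intro t ht
      by_cases h : t + 1 ≤ n
      · have h' : t ≤ n := by omega
        simp only [h, h', if_true]
        exact pD t (by omega)
      · have h' : t = n := by omega
        subst h'
        simp only [le_refl, if_true, h, if_false]
        rw [pn]
        exact hwv
    · intro t ht
      by_cases h : t ≤ n
      · simp only [h, if_true]
        exact pR t h
      · obtain rfl : t = n + 1 := by omega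
        simp only [h, if_false]
        exact ⟨hv, hmin⟩

end

theorem taskPath : TaskPath := by
  intro V _ _ D S U k L a b hK hcard hU hUk ha hb hab
  set S' := S \ U with hS'
  -- growth
  have hgrow : ∀ i, b ∉ R D S' a (i + 1) → (R D S' a i).card + k / 2 ≤ (R D S' a (i + 1)).card := by
    intro i hbi
    have h1 : k ≤ (S \ ((S' \ R D S' a (i + 1)) ∪ R D S' a i)).card := by
      by_contra hlt
      obtain ⟨b', hb', a', ha', hD⟩ := hK (S' \ R D S' a (i + 1)) (R D S' a i)
        (sdiff_subset.trans sdiff_subset) ((R_sub D S' a ha i).trans sdiff_subset) (by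
          rw [Finset.disjoint_left]
          intro x hx hx'
          exact (mem_sdiff.1 hx).2 (R_succ D S' a i hx')) ⟨b, mem_sdiff.2 ⟨hb, hbi⟩⟩
        ⟨a, R_mono D S' a (Nat.zero_le i) (by simp [R])⟩ (by omega)
      obtain ⟨ha1, ha2⟩ := mem_sdiff.1 ha'
      exact ha2 (mem_succ D S' a ha1 hb' hD)
    have h2 : S \ ((S' \ R D S' a (i + 1)) ∪ R D S' a i) ⊆
        U ∪ (R D S' a (i + 1) \ R D S' a i) := by
      intro x hx
      simp only [hS', mem_sdiff, mem_union, not_or, not_and, not_not] at hx ⊢
      by_cases hxU : x ∈ U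
      · exact Or.inl hxU
      · exact Or.inr ⟨hx.2.1 ⟨hx.1, hxU⟩, hx.2.2⟩
    have h3 := (card_le_card h2).trans (card_union_le _ _)
    have h4 := card_sdiff_add_card_eq_card (R_succ D S' a i)
    omega
  have hbL : b ∈ R D S' a L := by
    by_contra hbL
    have h1 : ∀ i ≤ L, 1 + i * (k / 2) ≤ (R D S' a i).card := by
      intro i
      induction i with
      | zero => intro _; simp [R]
      | succ i ih =>
        intro hi
        have h2 := ih (by omega)
        have h3 := hgrow i (fun h => hbL (R_mono D S' a hi h))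
        have h4 : (i + 1) * (k / 2) = i * (k / 2) + k / 2 := by ring
        omega
    have h2 := h1 L le_rfl
    have h3 := card_le_card ((R_sub D S' a ha L).trans (sdiff_subset : S' ⊆ S))
    have h4 : L * (k / 2) = k / 2 * L := mul_comm _ _
    omega
  classical
  have hex : ∃ n, b ∈ R D S' a n := ⟨L, hbL⟩
  set n := Nat.find hex with hn
  have hbn : b ∈ R D S' a n := Nat.find_spec hex
  have hmin : ∀ m < n, b ∉ R D S' a m := fun m hm => Nat.find_min hex hm
  have hnL : n ≤ L := Nat.find_min' hex hbL
  have hn1 : 1 ≤ n := by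
    by_contra h
    have h0 : n = 0 := by omega
    rw [h0] at hbn
    have : b = a := by simpa [R] using hbn
    exact hab this.symm
  obtain ⟨p, p0, pn, pD, pR⟩ := walk D S' a n b hbn hmin
  refine ⟨n, p, hn1, hnL, p0, pn, pD, fun t ht => R_sub D S' a ha t (pR t ht).1, ?_⟩
  intro t t' ht ht' he
  rcases lt_trichotomy t t' with h | h | h
  · exact absurd (he ▸ (pR t ht).1) ((pR t' ht').2 t h)
  · exact h
  · exact absurd (he.symm ▸ (pR t' ht').1) ((pR t ht).2 t' h)

end Pool.Agent.H134R3.NLT
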