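import Mathlib

set_option autoImplicit false

/-! Polynomial maps (in the sense of vanishing iterated differences) from an additive commutative group
to `ZMod 2`. -/

namespace Pool.H134R3.Vershik

abbrev F := ZMod 2

/-- `LT d f`: all `d`-fold iterated differences of `f` vanish, i.e. `f` has degree `< d`. -/
def LT {H : Type*} [AddCommGroup H] : ℕ → (H → F) → Prop
  | 0, f => f = 0
  | d + 1, f => ∀ h : H, LT d (fun x => f (x + h) - f x)

section
variable {H : Type*} [AddCommGroup H]

theorem LT_zero (d : ℕ) : LT d (0 : H → F) := by
  induction d with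
  | zero => rfl
  | succ d ih =>
    intro h
    have : (fun x : H => (0 : H → F) (x + h) - (0 : H → F) x) = 0 := by
      ext x; simp
    rw [this]; exact ih

theorem LT_succ (d : ℕ) : ∀ f : H → F, LT d f → LT (d + 1) f := by
  induction d with
  | zero =>
    intro f hf
    have hf' : f = 0 := hf
    subst hf'
    exact LT_zero 1
  | succ d ih =>
    intro f hf h
    exact ih _ (hf h)

theorem LT_mono {d e : ℕ} (hde : d ≤ e) {f : H → F} (hf : LT d f) : LT e f := by
  induction hde with
  | refl => exact hf
  | step _ ih => exact LT_succ _ _ ih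

theorem LT_add (d : ℕ) : ∀ f g : H → F, LT d f → LT d g → LT d (fun x => f x + g x) := by
  induction d with
  | zero =>
    intro f g hf hg
    have hf' : f = 0 := hf
    have hg' : g = 0 := hg
    subst hf' hg'
    show (fun x : H => (0 : H → F) x + (0 : H → F) x) = 0
    ext x; simp
  | succ d ih =>
    intro f g hf hg h
    have := ih _ _ (hf h) (hg h)
    have e : (fun x => (fun x => f (x + h) - f x) x + (fun x => g (x + h) - g x) x)
        = (fun x => (fun x => f x + g x) (x + h) - (fun x => f x + g x) x) := by
      ext x; simp only; ring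
    rw [e] at this
    exact this

theorem LT_neg (d : ℕ) : ∀ f : H → F, LT d f → LT d (fun x => - f x) := by
  induction d with
  | zero =>
    intro f hf
    have hf' : f = 0 := hf
    subst hf'
    show (fun x : H => - (0 : H → F) x) = 0
    ext x; simp
  | succ d ih =>
    intro f hf h
    have := ih _ (hf h)
    have e : (fun x => -(fun x => f (x + h) - f x) x)
        = (fun x => (fun x => - f x) (x + h) - (fun x => - f x) x) := by
      ext x; simp only; ring
    rw [e] at this
    exact this

theorem LT_sub (d : ℕ) (f g : H → F) (hf : LT d f) (hg : LT d g) :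
    LT d (fun x => f x - g x) := by
  have := LT_add d f (fun x => - g x) hf (LT_neg d g hg)
  simpa [sub_eq_add_neg] using this

theorem LT_translate (d : ℕ) : ∀ (f : H → F) (c : H), LT d f → LT d (fun x => f (x + c)) := by
  induction d with
  | zero =>
    intro f c hf
    have hf' : f = 0 := hf
    subst hf'
    rfl
  | succ d ih =>
    intro f c hf h
    have := ih _ c (hf h)
    have e : (fun x => (fun x => f (x + h) - f x) (x + c))
        = (fun x => (fun x => f (x + c)) (x + h) - (fun x => f (x + c)) x) := by
      ext x
      simp only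
      rw [add_right_comm]
    rw [e] at this
    exact this

theorem LT_const (c : F) : LT 1 (fun _ : H => c) := by
  intro h
  show (fun x : H => c - c) = 0
  ext x; simp

theorem LT_comp {K : Type*} [AddCommGroup K] (L : K →+ H) (d : ℕ) :
    ∀ f : H → F, LT d f → LT d (fun x => f (L x)) := by
  induction d with
  | zero =>
    intro f hf
    have hf' : f = 0 := hf
    subst hf'
    rfl
  | succ d ih =>
    intro f hf h
    have := ih _ (hf (L h))
    have e : (fun x => (fun x => f (x + L h) - f x) (L x))
        = (fun x => (fun x => f (L x)) (x + h) - (fun x => f (L x)) x) := by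
      ext x
      simp only [map_add]
    rw [e] at this
    exact this

theorem LT_mul (n : ℕ) : ∀ (d e : ℕ), d + e = n → ∀ f g : H → F, LT (d + 1) f → LT (e + 1) g →
    LT (n + 1) (fun x => f x * g x) := by
  induction n with
  | zero =>
    intro d e hde f g hf hg h
    have hd : d = 0 := by omega
    have he : e = 0 := by omega
    subst hd he
    have h1 : (fun x => f (x + h) - f x) = 0 := hf h
    have h2 : (fun x => g (x + h) - g x) = 0 := hg h
    show (fun x => f (x + h) * g (x + h) - f x * g x) = 0
    ext x
    have h1' := congrFun h1 x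
    have h2' := congrFun h2 x
    simp only [Pi.zero_apply] at h1' h2' ⊢
    have a1 : f (x + h) = f x := sub_eq_zero.1 h1'
    have a2 : g (x + h) = g x := sub_eq_zero.1 h2'
    rw [a1, a2, sub_self]
  | succ n ih =>
    intro d e hde f g hf hg h
    have key : (fun x => (fun x => f x * g x) (x + h) - (fun x => f x * g x) x)
        = (fun x => (fun x => (fun x => f (x + h) - f x) x * (fun x => g (x + h)) x) x
            + (fun x => f x * (fun x => g (x + h) - g x) x) x) := by
      ext x; simp only; ring
    rw [key]
    apply LT_add
    · cases d with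
      | zero =>
        have h1 : (fun x => f (x + h) - f x) = 0 := hf h
        rw [h1]
        have : (fun x => (0 : H → F) x * (fun x => g (x + h)) x) = 0 := by
          ext x; simp
        rw [this]
        exact LT_zero _
      | succ d =>
        exact ih d e (by omega) _ _ (hf h) (LT_translate _ _ h hg)
    · cases e with
      | zero =>
        have h1 : (fun x => g (x + h) - g x) = 0 := hg h
        rw [h1]
        have : (fun x => f x * (0 : H → F) x) = 0 := by
          ext x; simp
        rw [this]
        exact LT_zero _
      | succ e =>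
        exact ih d e (by omega) _ _ hf (hg h)

theorem LT_prod {ι : Type*} (s : Finset ι) (d : ι → ℕ) (f : ι → H → F)
    (hf : ∀ i ∈ s, LT (d i + 1) (f i)) :
    LT ((∑ i ∈ s, d i) + 1) (fun x => ∏ i ∈ s, f i x) := by
  classical
  induction s using Finset.induction_on with
  | empty =>
    simp only [Finset.sum_empty, Finset.prod_empty]
    exact LT_const 1
  | insert a s ha ih =>
    rw [Finset.sum_insert ha]
    have e : (fun x => ∏ i ∈ insert a s, f i x) = (fun x => f a x * (fun x => ∏ i ∈ s, f i x) x) := by
      ext x
      rw [Finset.prod_insert ha]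
    rw [e]
    refine LT_mul _ (d a) (∑ i ∈ s, d i) rfl _ _ (hf a (Finset.mem_insert_self _ _)) (ih ?_)
    intro i hi
    exact hf i (Finset.mem_insert_of_mem hi)

end

/-- On `ℤ` it suffices to control the difference with step one. -/
theorem LT_int (d : ℕ) (f : ℤ → F) (h1 : LT d (fun x => f (x + 1) - f x)) : LT (d + 1) f := by
  intro h
  induction h using Int.induction_on with
  | zero =>
    have : (fun x : ℤ => f (x + 0) - f x) = 0 := by ext x; simp
    rw [this]; exact LT_zero d
  | succ i ih =>
    have e : (fun x : ℤ => f (x + ((i : ℤ) + 1)) - f x)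
        = (fun x => (fun x => (fun x => f (x + 1) - f x) (x + i)) x + (fun x => f (x + i) - f x) x) := by
      ext x
      simp only
      rw [← add_assoc]
      ring
    rw [e]
    exact LT_add d _ _ (LT_translate d _ _ h1) ih
  | pred i ih =>
    have e : (fun x : ℤ => f (x + (-(i : ℤ) - 1)) - f x)
        = (fun x => (fun x => f (x + -i) - f x) x
            - (fun x => (fun x => f (x + 1) - f x) (x + (-(i : ℤ) - 1))) x) := by
      ext x
      simp only
      have : x + (-(i : ℤ) - 1) + 1 = x + -i := by ring
      rw [this]
      ring
    rw [e]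
    exact LT_sub d _ _ ih (LT_translate d _ _ h1)

theorem LT_choose (q : ℕ) : LT (q + 1) (fun x : ℤ => ((Ring.choose x q : ℤ) : F)) := by
  induction q with
  | zero =>
    have : (fun x : ℤ => ((Ring.choose x 0 : ℤ) : F)) = fun _ => (1 : F) := by
      ext x; simp
    rw [this]
    exact LT_const 1
  | succ q ih =>
    apply LT_int
    have : (fun x : ℤ => ((Ring.choose (x + 1) (q + 1) : ℤ) : F) - ((Ring.choose x (q + 1) : ℤ) : F))
        = (fun x : ℤ => ((Ring.choose x q : ℤ) : F)) := by
      ext x
      rw [Ring.choose_succ_succ]
      push_cast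
      ring
    rw [this]
    exact ih

/-- The function `binom(x + k, 2k+1)` mod 2. -/
def gk (k : ℕ) (x : ℤ) : F := ((Ring.choose (x + k) (2 * k + 1) : ℤ) : F)

theorem LT_gk (k : ℕ) : LT (2 * k + 1 + 1) (gk k) := by
  have := LT_translate (2 * k + 1 + 1) _ (k : ℤ) (LT_choose (2 * k + 1))
  exact this

theorem gk_small (k : ℕ) (x : ℤ) (hx : |x| ≤ k) : gk k x = 0 := by
  unfold gk
  have h := abs_le.1 hx
  obtain ⟨n, hn⟩ : ∃ n : ℕ, x + k = n := ⟨(x + k).toNat, by omega⟩
  rw [hn, Ring.choose_natCast]
  rw [Nat.choose_eq_zero_of_lt (by omega)]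
  simp

theorem gk_one (k : ℕ) : gk k ((k : ℤ) + 1) = 1 := by
  unfold gk
  have : (k : ℤ) + 1 + k = ((2 * k + 1 : ℕ) : ℤ) := by push_cast; ring
  rw [this, Ring.choose_natCast, Nat.choose_self]
  simp

end Pool.H134R3.Vershik
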