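import Mathlib
import Pool.Agent.H134R3.PolyDeg

set_option autoImplicit false

/-! The operators and the group. -/

namespace Pool.H134R3.Vershik

open Function

/-- block length at level `k` -/
def C (k : ℕ) : ℕ := 8 * 4 ^ (k + 1)

theorem C_pos (k : ℕ) : 0 < C k := by unfold C; positivity

/-- The word `z 0, …, z (l-1)` is forbidden if it has a block of length `C k` of spread at most `k`. -/
def Forb (l : ℕ) (z : ℕ → ℤ) : Prop :=
  ∃ k s : ℕ, s + C k ≤ l ∧ ∀ i j, s ≤ i → i < s + C k → s ≤ j → j < s + C k → |z i - z j| ≤ k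

theorem Forb_succ (l : ℕ) (z : ℕ → ℤ) (x : ℤ) (h : Forb l z) : Forb (l + 1) (update z l x) := by
  obtain ⟨k, s, hs, hk⟩ := h
  refine ⟨k, s, by omega, ?_⟩
  intro i j hi hi' hj hj'
  rw [update_of_ne (by omega), update_of_ne (by omega)]
  exact hk i j hi hi' hj hj'

abbrev Fn := ℕ → (ℕ → ℤ) → ℤ → F

/-- functions vanishing on forbidden words -/
def Y : Submodule F Fn where
  carrier := {φ | ∀ l z m, Forb l z → φ l z m = 0}
  add_mem' := by
    intro φ ψ hφ hψ l z m h
    simp [hφ l z m h, hψ l z m h]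
  zero_mem' := by
    intro l z m _
    rfl
  smul_mem' := by
    intro c φ hφ l z m h
    simp [hφ l z m h]

theorem Y_ext {φ ψ : Y} (h : ∀ l z m, φ.1 l z m = ψ.1 l z m) : φ = ψ := by
  apply Subtype.ext
  funext l z m
  exact h l z m

abbrev E := Module.End F Y

/-- append the letter `m + i` -/
def X (i : ℤ) : E where
  toFun φ := ⟨fun l z m => φ.1 (l + 1) (update z l (m + i)) m, by
    intro l z m h
    exact φ.2 _ _ _ (Forb_succ l z _ h)⟩
  map_add' := by intro φ ψ; rfl
  map_smul' := by intro c φ; rfl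

/-- translation in the last variable -/
def tau (j : ℤ) : E where
  toFun φ := ⟨fun l z m => φ.1 l z (m + j), by
    intro l z m h
    exact φ.2 _ _ _ h⟩
  map_add' := by intro φ ψ; rfl
  map_smul' := by intro c φ; rfl

theorem X_apply (i : ℤ) (φ : Y) (l : ℕ) (z : ℕ → ℤ) (m : ℤ) :
    (X i φ).1 l z m = φ.1 (l + 1) (update z l (m + i)) m := rfl

theorem tau_apply (i : ℤ) (φ : Y) (l : ℕ) (z : ℕ → ℤ) (m : ℤ) :
    (tau i φ).1 l z m = φ.1 l z (m + i) := rfl

theorem tau_mul (i j : ℤ) : tau i * tau j = tau (i + j) := by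
  apply LinearMap.ext
  intro φ
  apply Y_ext
  intro l z m
  show (tau i (tau j φ)).1 l z m = _
  rw [tau_apply, tau_apply, tau_apply, add_assoc]

theorem tau_zero : tau 0 = 1 := by
  apply LinearMap.ext
  intro φ
  apply Y_ext
  intro l z m
  rw [tau_apply, add_zero]
  rfl

/-- translation as a homomorphism -/
def tauHom : Multiplicative ℤ →* Eˣ where
  toFun j := ⟨tau j.toAdd, tau (-j.toAdd), by rw [tau_mul, add_neg_cancel, tau_zero],
    by rw [tau_mul, neg_add_cancel, tau_zero]⟩
  map_one' := by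
    apply Units.ext
    exact tau_zero
  map_mul' := by
    intro x y
    apply Units.ext
    exact (tau_mul _ _).symm

def t : Eˣ := tauHom (Multiplicative.ofAdd 1)

theorem t_zpow (j : ℤ) : ((t ^ j : Eˣ) : E) = tau j := by
  unfold t
  rw [← map_zpow]
  have : (Multiplicative.ofAdd (1 : ℤ)) ^ j = Multiplicative.ofAdd j := by
    rw [← ofAdd_zsmul]; simp
  rw [this]
  rfl

/-- positions `l, l+1, …` of `z` are replaced by `m + w` -/
def upd (z : ℕ → ℤ) (l : ℕ) (m : ℤ) : List ℤ → (ℕ → ℤ)
  | [] => z
  | i :: w => upd (update z l (m + i)) (l + 1) m w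

theorem upd_apply (m : ℤ) (w : List ℤ) : ∀ (z : ℕ → ℤ) (l j : ℕ),
    upd z l m w j = if l ≤ j ∧ j < l + w.length then m + w.getD (j - l) 0 else z j := by
  induction w with
  | nil =>
    intro z l j
    simp only [upd, List.length_nil, add_zero]
    rw [if_neg (by omega)]
  | cons i w ih =>
    intro z l j
    rw [upd, ih]
    by_cases h1 : l + 1 ≤ j ∧ j < l + 1 + w.length
    · rw [if_pos h1, if_pos (by simp only [List.length_cons]; omega)]
      obtain ⟨q, hq⟩ : ∃ q, j - l = q + 1 := ⟨j - l - 1, by omega⟩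
      have hq' : j - (l + 1) = q := by omega
      rw [hq, hq', List.getD_cons_succ]
    · rw [if_neg h1]
      by_cases h2 : j = l
      · subst h2
        rw [update_self, if_pos (by simp only [List.length_cons]; omega)]
        simp
      · rw [update_of_ne h2, if_neg (by simp only [List.length_cons]; omega)]

def Xw (w : List ℤ) : E := (w.map X).prod

theorem Xw_cons (i : ℤ) (w : List ℤ) : Xw (i :: w) = X i * Xw w := by
  simp [Xw]

theorem Xw_apply (w : List ℤ) : ∀ (φ : Y) (l : ℕ) (z : ℕ → ℤ) (m : ℤ),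
    (Xw w φ).1 l z m = φ.1 (l + w.length) (upd z l m w) m := by
  induction w with
  | nil =>
    intro φ l z m
    rfl
  | cons i w ih =>
    intro φ l z m
    rw [Xw_cons]
    show (X i (Xw w φ)).1 l z m = _
    rw [X_apply, ih]
    have : l + 1 + w.length = l + (i :: w).length := by simp; omega
    rw [this]
    rfl

theorem Xw_nil (k : ℕ) (lo : ℤ) (w : List ℤ) (hw : w.length = C k)
    (h : ∀ x ∈ w, lo ≤ x ∧ x ≤ lo + k) : Xw w = 0 := by
  apply LinearMap.ext
  intro φ
  apply Y_ext
  intro l z m
  rw [Xw_apply]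
  apply φ.2
  refine ⟨k, l, by omega, ?_⟩
  have key : ∀ i, l ≤ i → i < l + C k →
      lo ≤ upd z l m w i - m ∧ upd z l m w i - m ≤ lo + k := by
    intro i hi hi'
    rw [upd_apply, if_pos (by omega)]
    have hlt : i - l < w.length := by omega
    rw [List.getD_eq_getElem _ _ hlt]
    have := h _ (List.getElem_mem hlt)
    constructor <;> [linarith [this.1]; linarith [this.2]]
  intro i j hi hi' hj hj'
  have h1 := key i hi hi'
  have h2 := key j hj hj'
  rw [abs_le]
  constructor <;> linarith [h1.1, h1.2, h2.1, h2.2]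

theorem X_nilpotent (i : ℤ) : IsNilpotent (X i) := by
  refine ⟨C 0, ?_⟩
  have := Xw_nil 0 i (List.replicate (C 0) i) (by simp) (by
    intro x hx
    have := List.eq_of_mem_replicate hx
    subst this
    simp)
  rw [Xw, List.map_replicate, List.prod_replicate] at this
  exact this

noncomputable def a : Eˣ := (X_nilpotent 0).isUnit_one_add.unit

theorem a_coe : (a : E) = 1 + X 0 := rfl

/-- the conjugates of `a` -/
noncomputable def A (i : ℤ) : Eˣ := t ^ i * a * t ^ (-i)

theorem A_coe (i : ℤ) : (A i : E) = 1 + X i := by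
  unfold A
  rw [Units.val_mul, Units.val_mul, t_zpow, t_zpow, a_coe, mul_add, add_mul, mul_one, tau_mul,
    add_neg_cancel, tau_zero]
  congr 1
  apply LinearMap.ext
  intro φ
  apply Y_ext
  intro l z m
  show (tau i (X 0 (tau (-i) φ))).1 l z m = _
  rw [tau_apply, X_apply, tau_apply, X_apply]
  simp

theorem A_zero : A 0 = a := by
  unfold A; simp

theorem A_conj (i j : ℤ) : t ^ i * A j * t ^ (-i) = A (i + j) := by
  unfold A
  rw [zpow_add, neg_add, zpow_add]
  simp only [zpow_neg]
  have hc : (t ^ i)⁻¹ * (t ^ j)⁻¹ = (t ^ j)⁻¹ * (t ^ i)⁻¹ := by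
    rw [← mul_inv_rev, ← mul_inv_rev, ← zpow_add, ← zpow_add, add_comm]
  rw [hc]
  group

/-- The window subgroups. -/
def T (n : ℕ) : Subgroup Eˣ := Subgroup.closure (A '' Set.Icc (-(n : ℤ)) n)

/-- generators of the finite space containing the window subgroup -/
def Sgen (n : ℕ) : Set E :=
  (fun w : List (Set.Icc (-(n : ℤ)) n) => Xw (w.map Subtype.val)) ''
    {w | w.length < C (2 * n)}

theorem Sgen_finite (n : ℕ) : (Sgen n).Finite := by
  apply Set.Finite.image
  exact List.finite_length_lt _ _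

def Wsp (n : ℕ) : Submodule F E := Submodule.span F (Sgen n)

theorem Wsp_finite (n : ℕ) : Finite (Wsp n) := by
  have : Module.Finite F (Wsp n) := Module.Finite.span_of_finite F (Sgen_finite n)
  exact Module.finite_of_finite F

theorem one_mem_Wsp (n : ℕ) : (1 : E) ∈ Wsp n := by
  apply Submodule.subset_span
  exact ⟨[], C_pos _, rfl⟩

theorem X_mul_mem (n : ℕ) (i : ℤ) (hi : i ∈ Set.Icc (-(n : ℤ)) n) (w : E) (hw : w ∈ Wsp n) :
    X i * w ∈ Wsp n := by
  unfold Wsp at hw
  induction hw using Submodule.span_induction with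
  | mem x hx =>
    obtain ⟨w, hw, rfl⟩ := hx
    have hw' : w.length < C (2 * n) := hw
    have e : X i * Xw (w.map Subtype.val) = Xw (((⟨i, hi⟩ :: w : List (Set.Icc (-(n : ℤ)) n))).map Subtype.val) := by
      rw [List.map_cons, Xw_cons]
    show X i * Xw (w.map Subtype.val) ∈ Wsp n
    rw [e]
    by_cases h : (⟨i, hi⟩ :: w : List (Set.Icc (-(n : ℤ)) n)).length < C (2 * n)
    · apply Submodule.subset_span
      exact ⟨_, h, rfl⟩
    · rw [Xw_nil (2 * n) (-(n : ℤ))]
      · exact Submodule.zero_mem _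
      · simp only [List.length_map]
        simp only [List.length_cons] at h ⊢
        omega
      · intro x hx
        obtain ⟨y, _, rfl⟩ := List.mem_map.1 hx
        have := y.2
        simp only [Set.mem_Icc] at this
        push_cast
        constructor <;> linarith [this.1, this.2]
  | zero => rw [mul_zero]; exact Submodule.zero_mem _
  | add x y _ _ hx hy => rw [mul_add]; exact Submodule.add_mem _ hx hy
  | smul c x _ hx => rw [mul_smul_comm]; exact Submodule.smul_mem _ _ hx

theorem T_mul_mem (n : ℕ) (g : Eˣ) (hg : g ∈ T n) : ∀ w ∈ Wsp n, (g : E) * w ∈ Wsp n := by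
  unfold T at hg
  induction hg using Subgroup.closure_induction with
  | mem x hx =>
    obtain ⟨i, hi, rfl⟩ := hx
    intro w hw
    rw [A_coe, add_mul, one_mul]
    exact Submodule.add_mem _ hw (X_mul_mem n i hi w hw)
  | one => intro w hw; simpa using hw
  | mul x y _ _ hx hy =>
    intro w hw
    rw [Units.val_mul, mul_assoc]
    exact hx _ (hy _ hw)
  | inv x _ hx =>
    intro w hw
    have := Wsp_finite n
    let f : Wsp n → Wsp n := fun v => ⟨(x : E) * v.1, hx _ v.2⟩
    have hf : Function.Injective f := by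
      intro u v huv
      have h1 : (x : E) * u.1 = (x : E) * v.1 := congrArg Subtype.val huv
      apply Subtype.ext
      exact x.isUnit.mul_left_cancel h1
    obtain ⟨v, hv⟩ := (Finite.injective_iff_surjective.1 hf) ⟨w, hw⟩
    have h1 : (x : E) * v.1 = w := congrArg Subtype.val hv
    have h2 : ((x⁻¹ : Eˣ) : E) * w = v.1 := by
      rw [← h1, ← mul_assoc, ← Units.val_mul, inv_mul_cancel, Units.val_one, one_mul]
    rw [h2]
    exact v.2

theorem T_finite (n : ℕ) : Finite (T n) := by
  have := Wsp_finite n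
  let f : T n → Wsp n := fun g => ⟨(g.1 : E), by
    have := T_mul_mem n g.1 g.2 1 (one_mem_Wsp n)
    rwa [mul_one] at this⟩
  have hf : Function.Injective f := by
    intro g h hgh
    have : (g.1 : E) = (h.1 : E) := congrArg Subtype.val hgh
    apply Subtype.ext
    exact Units.ext this
  exact Finite.of_injective f hf

/-- The group. -/
def G : Subgroup Eˣ := Subgroup.closure {a, t}

theorem a_mem : a ∈ G := Subgroup.subset_closure (by simp)
theorem t_mem : t ∈ G := Subgroup.subset_closure (by simp)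

theorem A_mem (i : ℤ) : A i ∈ G := by
  unfold A
  exact G.mul_mem (G.mul_mem (G.zpow_mem t_mem _) a_mem) (G.zpow_mem t_mem _)

theorem T_le (n : ℕ) : T n ≤ G := by
  unfold T
  rw [Subgroup.closure_le]
  rintro _ ⟨i, _, rfl⟩
  exact A_mem i

theorem G_fg : Group.FG G := by
  classical
  rw [Group.fg_iff_subgroup_fg]
  refine ⟨({a, t} : Finset Eˣ), ?_⟩
  rw [Finset.coe_insert, Finset.coe_singleton]
  rfl

end Pool.H134R3.Vershik
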