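import Mathlib
import Pool.Agent.H134R3.VershikOps

set_option autoImplicit false

/-! The group is amenable. -/

namespace Pool.H134R3.Vershik

open Function Filter Topology

noncomputable def aG : G := ⟨a, a_mem⟩
def tG : G := ⟨t, t_mem⟩

def incl (n : ℕ) (u : T n) : G := ⟨u.1, T_le n u.2⟩

noncomputable instance instFT (n : ℕ) : Fintype (T n) :=
  have := T_finite n
  Fintype.ofFinite _

noncomputable def row (n : ℕ) (f : G → ℝ) (j : ℕ) : ℝ := ∑ u : T n, f (tG ^ j * incl n u)

noncomputable def avg (n : ℕ) (f : G → ℝ) : ℝ :=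
  (∑ j ∈ Finset.range n, row n f j) / (n * (Fintype.card (T n) : ℝ))

theorem card_pos' (n : ℕ) : (0 : ℝ) < (Fintype.card (T n) : ℝ) := by
  have : 0 < Fintype.card (T n) := Fintype.card_pos
  exact_mod_cast this

theorem row_nonneg (n : ℕ) (f : G → ℝ) (hf : ∀ x, 0 ≤ f x) (j : ℕ) : 0 ≤ row n f j :=
  Finset.sum_nonneg (fun _ _ => hf _)

theorem row_le (n : ℕ) (f : G → ℝ) (hf : ∀ x, f x ≤ 1) (j : ℕ) :
    row n f j ≤ (Fintype.card (T n) : ℝ) := by
  unfold row
  calc ∑ u : T n, f (tG ^ j * incl n u) ≤ ∑ _u : T n, (1 : ℝ) :=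
        Finset.sum_le_sum (fun _ _ => hf _)
    _ = (Fintype.card (T n) : ℝ) := by simp

theorem avg_nonneg (n : ℕ) (f : G → ℝ) (hf : ∀ x, 0 ≤ f x) : 0 ≤ avg n f := by
  unfold avg
  apply div_nonneg
  · exact Finset.sum_nonneg (fun _ _ => row_nonneg n f hf _)
  · positivity

theorem avg_le (n : ℕ) (f : G → ℝ) (hf : ∀ x, f x ≤ 1) : avg n f ≤ 1 := by
  unfold avg
  apply div_le_one_of_le₀
  · calc ∑ j ∈ Finset.range n, row n f j ≤ ∑ _j ∈ Finset.range n, (Fintype.card (T n) : ℝ) :=
          Finset.sum_le_sum (fun _ _ => row_le n f hf _)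
      _ = n * (Fintype.card (T n) : ℝ) := by simp
  · positivity

theorem avg_add (n : ℕ) (f g : G → ℝ) : avg n (fun x => f x + g x) = avg n f + avg n g := by
  unfold avg row
  rw [← add_div, ← Finset.sum_add_distrib]
  congr 1
  apply Finset.sum_congr rfl
  intro j _
  rw [← Finset.sum_add_distrib]

theorem avg_one (n : ℕ) (hn : 0 < n) : avg n (fun _ => (1 : ℝ)) = 1 := by
  unfold avg row
  have h1 := card_pos' n
  have h2 : (0 : ℝ) < n := by exact_mod_cast hn
  simp only [Finset.sum_const, Finset.card_univ, nsmul_eq_mul, mul_one, Finset.card_range]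
  field_simp

theorem avg_a (n : ℕ) (f : G → ℝ) : avg n (fun x => f (aG * x)) = avg n f := by
  unfold avg
  congr 1
  apply Finset.sum_congr rfl
  intro j hj
  have hj' := Finset.mem_range.1 hj
  unfold row
  have hmem : A (-(j : ℤ)) ∈ T n := by
    apply Subgroup.subset_closure
    refine ⟨-(j : ℤ), ?_, rfl⟩
    simp only [Set.mem_Icc]
    omega
  rw [← Equiv.sum_comp (Equiv.mulLeft (⟨A (-(j : ℤ)), hmem⟩ : T n)) (fun u => f (tG ^ j * incl n u))]
  apply Finset.sum_congr rfl
  intro u _
  show f (aG * (tG ^ j * incl n u)) = f (tG ^ j * incl n (⟨A (-(j : ℤ)), hmem⟩ * u))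
  congr 1
  apply Subtype.ext
  show a * (t ^ j * u.1) = t ^ j * (A (-(j : ℤ)) * u.1)
  unfold A
  have : (t ^ j : Eˣ) = t ^ (j : ℤ) := (zpow_natCast t j).symm
  rw [this]
  group

theorem avg_t (n : ℕ) (f : G → ℝ) (h0 : ∀ x, 0 ≤ f x) (h1 : ∀ x, f x ≤ 1) :
    |avg n (fun x => f (tG * x)) - avg n f| ≤ 1 / n := by
  have hrow : ∀ j, row n (fun x => f (tG * x)) j = row n f (j + 1) := by
    intro j
    unfold row
    apply Finset.sum_congr rfl
    intro u _
    simp only
    rw [pow_succ', mul_assoc]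
  unfold avg
  rw [← sub_div]
  have hsum : ∑ j ∈ Finset.range n, row n (fun x => f (tG * x)) j - ∑ j ∈ Finset.range n, row n f j
      = row n f n - row n f 0 := by
    rw [← Finset.sum_sub_distrib]
    simp only [hrow]
    exact Finset.sum_range_sub (fun j => row n f j) n
  rw [hsum]
  have hc := card_pos' n
  rcases Nat.eq_zero_or_pos n with hn | hn
  · subst hn; simp
  have hn' : (0 : ℝ) < n := by exact_mod_cast hn
  rw [abs_div, abs_of_pos (mul_pos hn' hc), div_le_div_iff₀ (mul_pos hn' hc) hn']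
  have : |row n f n - row n f 0| ≤ (Fintype.card (T n) : ℝ) := by
    rw [abs_le]
    constructor
    · linarith [row_nonneg n f h0 n, row_le n f h1 0]
    · linarith [row_nonneg n f h0 0, row_le n f h1 n]
  nlinarith

noncomputable def ind (S : Set G) (x : G) : ℝ := S.indicator (fun _ => (1 : ℝ)) x

theorem ind_nonneg (S : Set G) (x : G) : 0 ≤ ind S x := by
  unfold ind; exact Set.indicator_nonneg (fun _ _ => zero_le_one) x

theorem ind_le (S : Set G) (x : G) : ind S x ≤ 1 := by
  unfold ind
  by_cases h : x ∈ S <;> simp [h]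

theorem exists_lim (f : ℕ → ℝ) (h0 : ∀ n, 0 ≤ f n) (h1 : ∀ n, f n ≤ 1) :
    ∃ x, Tendsto f (hyperfilter ℕ : Filter ℕ) (𝓝 x) := by
  have hc : IsCompact (Set.Icc (0 : ℝ) 1) := isCompact_Icc
  obtain ⟨x, _, hx⟩ := hc.ultrafilter_le_nhds ((hyperfilter ℕ).map f) (by
    rw [le_principal_iff]
    show f ⁻¹' (Set.Icc (0 : ℝ) 1) ∈ (hyperfilter ℕ : Filter ℕ)
    filter_upwards with n
    exact ⟨h0 n, h1 n⟩)
  exact ⟨x, hx⟩

theorem amenable : ∃ μ : Set G → ℝ, (∀ S, 0 ≤ μ S) ∧ μ Set.univ = 1 ∧
    (∀ A B : Set G, Disjoint A B → μ (A ∪ B) = μ A + μ B) ∧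
    ∀ (g : G) (S : Set G), μ ((fun x => g * x) ⁻¹' S) = μ S := by
  classical
  have hlim : ∀ S : Set G, ∃ x, Tendsto (fun n => avg n (ind S)) (hyperfilter ℕ : Filter ℕ) (𝓝 x) :=
    fun S => exists_lim _ (fun n => avg_nonneg n _ (ind_nonneg S)) (fun n => avg_le n _ (ind_le S))
  choose μ hμ using hlim
  have hcof : ∀ᶠ n in (hyperfilter ℕ : Filter ℕ), 0 < n := by
    have : ∀ᶠ n in (cofinite : Filter ℕ), 0 < n := by
      rw [Nat.cofinite_eq_atTop]
      exact eventually_gt_atTop 0
    exact hyperfilter_le_cofinite this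
  have hle : (hyperfilter ℕ : Filter ℕ) ≤ atTop := by
    rw [← Nat.cofinite_eq_atTop]; exact hyperfilter_le_cofinite
  refine ⟨μ, ?_, ?_, ?_, ?_⟩
  · intro S
    exact ge_of_tendsto' (hμ S) (fun n => avg_nonneg n _ (ind_nonneg S))
  · refine tendsto_nhds_unique (hμ Set.univ) ?_
    refine Tendsto.congr' ?_ tendsto_const_nhds
    filter_upwards [hcof] with n hn
    have : ind Set.univ = fun _ => (1 : ℝ) := by
      funext x; simp [ind]
    rw [this, avg_one n hn]
  · intro A B hAB
    refine tendsto_nhds_unique (hμ (A ∪ B)) ?_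
    refine Tendsto.congr ?_ ((hμ A).add (hμ B))
    intro n
    rw [← avg_add]
    congr 1
    funext x
    unfold ind
    rw [Set.indicator_union_of_disjoint hAB]
  · -- invariance
    let K : Subgroup G :=
      { carrier := {g | ∀ S : Set G, μ ((fun x => g * x) ⁻¹' S) = μ S}
        one_mem' := by
          intro S
          simp
        mul_mem' := by
          intro g h hg hh S
          have : (fun x => g * h * x) ⁻¹' S = (fun x => h * x) ⁻¹' ((fun x => g * x) ⁻¹' S) := by
            ext x; simp [mul_assoc]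
          rw [this, hh, hg]
        inv_mem' := by
          intro g hg S
          have h1 := hg ((fun x => g⁻¹ * x) ⁻¹' S)
          have : (fun x => g * x) ⁻¹' ((fun x => g⁻¹ * x) ⁻¹' S) = S := by
            ext x; simp
          rw [this] at h1
          exact h1.symm }
    have hind : ∀ (g : G) (S : Set G), ind ((fun x => g * x) ⁻¹' S) = fun x => ind S (g * x) := by
      intro g S
      funext x
      rfl
    have ha : aG ∈ K := by
      intro S
      refine tendsto_nhds_unique (hμ _) ?_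
      refine Tendsto.congr ?_ (hμ S)
      intro n
      rw [hind, avg_a]
    have ht : tG ∈ K := by
      intro S
      refine tendsto_nhds_unique (hμ _) ?_
      have h0 : Tendsto (fun n => avg n (ind ((fun x => tG * x) ⁻¹' S)) - avg n (ind S))
          (hyperfilter ℕ : Filter ℕ) (𝓝 0) := by
        have h1 : Tendsto (fun n : ℕ => (1 : ℝ) / n) (hyperfilter ℕ : Filter ℕ) (𝓝 0) :=
          tendsto_one_div_atTop_nhds_zero_nat.mono_left hle
        refine squeeze_zero_norm (fun n => ?_) h1
        rw [hind, Real.norm_eq_abs]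
        exact avg_t n _ (ind_nonneg S) (ind_le S)
      have h2 := h0.add (hμ S)
      simpa using h2
    intro g
    have hK : ∀ (x : Eˣ) (hx : x ∈ G), (⟨x, hx⟩ : G) ∈ K := by
      intro x hx
      unfold G at hx
      induction hx using Subgroup.closure_induction with
      | mem x hx =>
        rcases hx with h | h
        · subst h; exact ha
        · have h' : x = t := h
          subst h'; exact ht
      | one => exact K.one_mem
      | mul x y hx hy ihx ihy => exact K.mul_mem ihx ihy
      | inv x hx ihx => exact K.inv_mem ihx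
    exact hK g.1 g.2

end Pool.H134R3.Vershik
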