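import Mathlib

set_option autoImplicit false

/-! The powers of the augmentation ideal of a finitely generated group have finite codimension. -/

namespace Pool.H134R3.Vershik

section
variable (k : Type) [Field k] (Γ : Type) [Group Γ]

/-- the augmentation ideal as a subspace -/
noncomputable def Mid : Submodule k (MonoidAlgebra k Γ) :=
  Submodule.span k (Set.range (fun g : Γ => MonoidAlgebra.of k Γ g - 1))

variable {k Γ}

noncomputable def Vgen (S : Set Γ) : Submodule k (MonoidAlgebra k Γ) :=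
  Submodule.span k ((fun g : Γ => MonoidAlgebra.of k Γ g - 1) '' S)

theorem Vgen_le (S : Set Γ) : Vgen (k := k) S ≤ Mid k Γ :=
  Submodule.span_mono (Set.image_subset_range _ _)

theorem Vtop_mul (S : Set Γ) (x y : MonoidAlgebra k Γ) (hx : x ∈ Vgen (k := k) S * ⊤) :
    x * y ∈ Vgen (k := k) S * ⊤ := by
  have h : x * y ∈ (Vgen (k := k) S * ⊤) * ⊤ := Submodule.mul_mem_mul hx Submodule.mem_top
  rw [mul_assoc] at h
  exact (mul_le_mul' le_rfl le_top : Vgen (k := k) S * (⊤ * ⊤) ≤ Vgen (k := k) S * ⊤) h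

theorem Mid_le (S : Set Γ) (hS : Subgroup.closure S = ⊤) : Mid k Γ ≤ Vgen (k := k) S * ⊤ := by
  unfold Mid
  rw [Submodule.span_le]
  rintro _ ⟨g, rfl⟩
  have hg : g ∈ Subgroup.closure S := by rw [hS]; trivial
  show MonoidAlgebra.of k Γ g - 1 ∈ Vgen (k := k) S * ⊤
  induction hg using Subgroup.closure_induction with
  | mem x hx =>
    have : MonoidAlgebra.of k Γ x - 1 = (MonoidAlgebra.of k Γ x - 1) * 1 := (mul_one _).symm
    rw [this]
    exact Submodule.mul_mem_mul (Submodule.subset_span ⟨x, hx, rfl⟩) Submodule.mem_top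
  | one => rw [map_one, sub_self]; exact Submodule.zero_mem _
  | mul x y _ _ hx hy =>
    have : MonoidAlgebra.of k Γ (x * y) - 1
        = (MonoidAlgebra.of k Γ x - 1) * MonoidAlgebra.of k Γ y + (MonoidAlgebra.of k Γ y - 1) := by
      rw [map_mul, sub_mul, one_mul]; abel
    rw [this]
    exact Submodule.add_mem _ (Vtop_mul S _ _ hx) hy
  | inv x _ hx =>
    have h1 : MonoidAlgebra.of k Γ x * MonoidAlgebra.of k Γ x⁻¹ = 1 := by
      rw [← map_mul, mul_inv_cancel, map_one]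
    have : MonoidAlgebra.of k Γ x⁻¹ - 1
        = - ((MonoidAlgebra.of k Γ x - 1) * MonoidAlgebra.of k Γ x⁻¹) := by
      rw [sub_mul, h1, one_mul]; abel
    rw [this]
    exact Submodule.neg_mem _ (Vtop_mul S _ _ hx)

theorem top_le_one_sup : (⊤ : Submodule k (MonoidAlgebra k Γ)) ≤ 1 ⊔ Mid k Γ := by
  intro x _
  induction x using MonoidAlgebra.induction_on with
  | of g =>
    have : MonoidAlgebra.of k Γ g = 1 + (MonoidAlgebra.of k Γ g - 1) := by abel
    rw [this]
    exact Submodule.add_mem_sup (Submodule.one_le.1 le_rfl) (Submodule.subset_span ⟨g, rfl⟩)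
  | add x y hx hy => exact Submodule.add_mem _ (hx trivial) (hy trivial)
  | smul r x hx => exact Submodule.smul_mem _ _ (hx trivial)

noncomputable def Wn (S : Set Γ) : ℕ → Submodule k (MonoidAlgebra k Γ)
  | 0 => 1
  | n + 1 => 1 ⊔ Vgen S * Wn S n

theorem Wn_fg (S : Finset Γ) (n : ℕ) : (Wn (k := k) (S : Set Γ) n).FG := by
  have h1 : (1 : Submodule k (MonoidAlgebra k Γ)).FG := by
    rw [Submodule.one_eq_span]; exact Submodule.fg_span_singleton _
  induction n with
  | zero => exact h1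
  | succ n ih =>
    refine Submodule.FG.sup h1 (Submodule.FG.mul ?_ ih)
    unfold Vgen
    exact Submodule.fg_span ((S.finite_toSet).image _)

theorem top_le (S : Set Γ) (hS : Subgroup.closure S = ⊤) (n : ℕ) :
    (⊤ : Submodule k (MonoidAlgebra k Γ)) ≤ Wn S n ⊔ (Mid k Γ) ^ (n + 1) := by
  induction n with
  | zero => simpa [Wn] using top_le_one_sup
  | succ n ih =>
    calc (⊤ : Submodule k (MonoidAlgebra k Γ)) ≤ 1 ⊔ Mid k Γ := top_le_one_sup
      _ ≤ 1 ⊔ Vgen S * ⊤ := sup_le_sup le_rfl (Mid_le S hS)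
      _ ≤ 1 ⊔ Vgen S * (Wn S n ⊔ (Mid k Γ) ^ (n + 1)) :=
          sup_le_sup le_rfl (mul_le_mul' le_rfl ih)
      _ = 1 ⊔ (Vgen S * Wn S n ⊔ Vgen S * (Mid k Γ) ^ (n + 1)) := by rw [Submodule.mul_sup]
      _ ≤ 1 ⊔ (Vgen S * Wn S n ⊔ Mid k Γ * (Mid k Γ) ^ (n + 1)) :=
          sup_le_sup le_rfl (sup_le_sup le_rfl (mul_le_mul' (Vgen_le S) le_rfl))
      _ = Wn S (n + 1) ⊔ (Mid k Γ) ^ (n + 1 + 1) := by
          rw [← sup_assoc, pow_succ' (Mid k Γ) (n + 1)]; rfl

theorem finite_quot (S : Finset Γ) (hS : Subgroup.closure (S : Set Γ) = ⊤) (n : ℕ) :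
    Module.Finite k (MonoidAlgebra k Γ ⧸ (Mid k Γ) ^ (n + 1)) := by
  constructor
  have h := top_le (k := k) (S : Set Γ) hS n
  have h2 : Submodule.map ((Mid k Γ) ^ (n + 1)).mkQ (Wn (S : Set Γ) n) = ⊤ := by
    rw [eq_top_iff]
    intro x _
    obtain ⟨y, rfl⟩ := Submodule.mkQ_surjective _ x
    obtain ⟨w, hw, m, hm, rfl⟩ := Submodule.mem_sup.1 (h (Submodule.mem_top (x := y)))
    refine ⟨w, hw, ?_⟩
    rw [map_add]
    have : ((Mid k Γ) ^ (n + 1)).mkQ m = 0 := by
      rw [Submodule.mkQ_apply, Submodule.Quotient.mk_eq_zero]; exact hm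
    rw [this, add_zero]
  rw [← h2]
  exact (Wn_fg S n).map _

end

end Pool.H134R3.Vershik
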