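import Mathlib
import Pool.Agent.H134R3.VershikOps
import Pool.Agent.H134R3.VershikFin

set_option autoImplicit false

/-! Exponential lower bound for the codimension of the powers of the augmentation ideal. -/

namespace Pool.H134R3.Vershik

open Function

/-- filtration of the module -/
def P : ℕ → Submodule F Y
  | 0 => ⊥
  | n + 1 => (P n).comap (X 0) ⊓ (P n).comap (tau 1 - 1)

theorem P_succ (n : ℕ) : P n ≤ P (n + 1) := by
  induction n with
  | zero => exact bot_le
  | succ n ih => exact inf_le_inf (Submodule.comap_mono ih) (Submodule.comap_mono ih)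

theorem P_mono {m n : ℕ} (h : m ≤ n) : P m ≤ P n := monotone_nat_of_le_succ P_succ h

theorem P_good (g : Eˣ) (hg : g ∈ G) :
    ∀ (n : ℕ) (φ : Y), φ ∈ P (n + 1) → (g : E) φ - φ ∈ P n := by
  unfold G at hg
  induction hg using Subgroup.closure_induction with
  | mem x hx =>
    intro n φ hφ
    have hφ' : X 0 φ ∈ P n ∧ (tau 1 - 1 : E) φ ∈ P n := hφ
    rcases hx with h | h
    · subst h
      rw [a_coe]
      have : (1 + X 0 : E) φ - φ = X 0 φ := by
        rw [LinearMap.add_apply]; simp
      rw [this]
      exact hφ'.1
    · have h' : x = t := h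
      subst h'
      have h1 : (t : E) = tau 1 := by
        have := t_zpow 1
        rwa [zpow_one] at this
      rw [h1]
      exact hφ'.2
  | one =>
    intro n φ _
    simp
  | mul x y _ _ hx hy =>
    intro n φ hφ
    have h1 := hy n φ hφ
    have h2 : (y : E) φ ∈ P (n + 1) := by
      have := Submodule.add_mem _ (P_succ n h1) hφ
      simpa using this
    have h3 := hx n _ h2
    have := Submodule.add_mem _ h3 h1
    rw [Units.val_mul]
    have e : (x : E) ((y : E) φ) - (y : E) φ + ((y : E) φ - φ) = ((x : E) * (y : E)) φ - φ := by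
      rw [Module.End.mul_apply]; abel
    rw [e] at this
    exact this
  | inv x _ hx =>
    have hcancel : ∀ ψ : Y, ((x⁻¹ : Eˣ) : E) ((x : E) ψ) = ψ := by
      intro ψ
      rw [← Module.End.mul_apply, ← Units.val_mul, inv_mul_cancel, Units.val_one]
      rfl
    have key : ∀ (n : ℕ) (η : Y), η ∈ P n → ((x⁻¹ : Eˣ) : E) η ∈ P n := by
      intro n
      induction n with
      | zero =>
        intro η hη
        have : η = 0 := (Submodule.mem_bot F).1 hη
        rw [this, map_zero]
        exact Submodule.zero_mem _
      | succ n ih =>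
        intro η hη
        have h1 := ih _ (hx n η hη)
        rw [map_sub, hcancel] at h1
        have h2 := Submodule.sub_mem _ hη (P_succ n h1)
        simpa using h2
    intro n φ hφ
    have h1 := key n _ (hx n φ hφ)
    rw [map_sub, hcancel] at h1
    have h2 := Submodule.neg_mem _ h1
    simpa using h2

noncomputable def rho : MonoidAlgebra F G →ₐ[F] E :=
  MonoidAlgebra.lift F E G ((Units.coeHom E).comp G.subtype)

theorem rho_of (g : G) : rho (MonoidAlgebra.of F G g) = (g.1 : E) := by
  simp [rho]

theorem Mid_kill (f : MonoidAlgebra F G) (hf : f ∈ Mid F G) :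
    ∀ (n : ℕ) (φ : Y), φ ∈ P (n + 1) → rho f φ ∈ P n := by
  unfold Mid at hf
  intro n φ hφ
  induction hf using Submodule.span_induction with
  | mem x hx =>
    obtain ⟨g, rfl⟩ := hx
    show rho (MonoidAlgebra.of F G g - 1) φ ∈ P n
    rw [map_sub, rho_of, map_one]
    exact P_good g.1 g.2 n φ hφ
  | zero => rw [map_zero]; exact Submodule.zero_mem _
  | add x y _ _ hx hy => rw [map_add]; exact Submodule.add_mem _ hx hy
  | smul c x _ hx => rw [map_smul]; exact Submodule.smul_mem _ _ hx

theorem Mid_pow_kill (i : ℕ) : ∀ (f : MonoidAlgebra F G), f ∈ (Mid F G) ^ i →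
    ∀ (j : ℕ) (φ : Y), φ ∈ P (i + j) → rho f φ ∈ P j := by
  induction i with
  | zero =>
    intro f hf j φ hφ
    rw [pow_zero, Submodule.mem_one] at hf
    obtain ⟨c, rfl⟩ := hf
    rw [AlgHom.commutes, zero_add] at *
    rw [Module.algebraMap_end_apply]
    exact Submodule.smul_mem _ _ hφ
  | succ i ih =>
    intro f hf j φ hφ
    rw [pow_succ] at hf
    induction hf using Submodule.mul_induction_on' with
    | mem_mul_mem x hx y hy =>
      rw [map_mul, Module.End.mul_apply]
      apply ih x hx
      apply Mid_kill y hy
      have : i + 1 + j = i + j + 1 := by omega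
      rwa [this] at hφ
    | add x _ y _ hx hy => rw [map_add]; exact Submodule.add_mem _ hx hy

def subst (l : ℕ) : ((ℕ → ℤ) × ℤ) →+ ((ℕ → ℤ) × ℤ) where
  toFun x := (update x.1 l x.2, x.2)
  map_zero' := by
    ext j
    · simp only [Prod.fst_zero, Prod.snd_zero]
      by_cases h : j = l
      · subst h; simp
      · rw [update_of_ne h]
    · rfl
  map_add' := by
    intro x y
    ext j
    · simp only [Prod.fst_add, Prod.snd_add, Pi.add_apply]
      by_cases h : j = l
      · subst h; simp
      · rw [update_of_ne h, update_of_ne h, update_of_ne h]; rfl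
    · rfl

theorem type_mem (N : ℕ) : ∀ (φ : Y) (l d : ℕ), l + d = N →
    (∀ l', l' ≠ l → ∀ z m, φ.1 l' z m = 0) →
    LT d (fun x : (ℕ → ℤ) × ℤ => φ.1 l x.1 x.2) → φ ∈ P N := by
  induction N with
  | zero =>
    intro φ l d hN h0 hd
    have hd0 : d = 0 := by omega
    subst hd0
    have hz : (fun x : (ℕ → ℤ) × ℤ => φ.1 l x.1 x.2) = 0 := hd
    have : φ = 0 := by
      apply Y_ext
      intro l' z m
      by_cases h : l' = l
      · subst h
        exact congrFun hz (z, m)
      · exact h0 l' h z m
    rw [this]; exact Submodule.zero_mem _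
  | succ N ih =>
    intro φ l d hN h0 hd
    refine ⟨?_, ?_⟩
    · show X 0 φ ∈ P N
      cases l with
      | zero =>
        have : X 0 φ = 0 := by
          apply Y_ext
          intro l' z m
          rw [X_apply]
          exact h0 _ (by omega) _ _
        rw [this]; exact Submodule.zero_mem _
      | succ l =>
        refine ih (X 0 φ) l d (by omega) ?_ ?_
        · intro l' hl' z m
          rw [X_apply]
          exact h0 _ (by omega) _ _
        · have := LT_comp (subst l) d _ hd
          have e : (fun x : (ℕ → ℤ) × ℤ => (X 0 φ).1 l x.1 x.2)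
              = (fun x => (fun x : (ℕ → ℤ) × ℤ => φ.1 (l + 1) x.1 x.2) (subst l x)) := by
            funext x
            rw [X_apply, add_zero]
            rfl
          rw [e]
          exact this
    · show (tau 1 - 1 : E) φ ∈ P N
      cases d with
      | zero =>
        have hz : (fun x : (ℕ → ℤ) × ℤ => φ.1 l x.1 x.2) = 0 := hd
        have : φ = 0 := by
          apply Y_ext
          intro l' z m
          by_cases h : l' = l
          · subst h
            exact congrFun hz (z, m)
          · exact h0 l' h z m
        rw [this, map_zero]; exact Submodule.zero_mem _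
      | succ d =>
        refine ih _ l d (by omega) ?_ ?_
        · intro l' hl' z m
          show (tau 1 φ).1 l' z m - φ.1 l' z m = 0
          rw [tau_apply, h0 l' hl', h0 l' hl', sub_zero]
        · have := hd ((0 : ℕ → ℤ), (1 : ℤ))
          have e : (fun x : (ℕ → ℤ) × ℤ => ((tau 1 - 1 : E) φ).1 l x.1 x.2)
              = (fun x => (fun x : (ℕ → ℤ) × ℤ => φ.1 l x.1 x.2) (x + ((0 : ℕ → ℤ), (1 : ℤ)))
                - (fun x : (ℕ → ℤ) × ℤ => φ.1 l x.1 x.2) x) := by
            funext x
            show (tau 1 φ).1 l x.1 x.2 - φ.1 l x.1 x.2 = _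
            rw [tau_apply]
            simp
          rw [e]
          exact this

end Pool.H134R3.Vershik
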