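import Mathlib
import Pool.Agent.H134R3.VershikMain

set_option autoImplicit false

namespace Pool.H134R3.Vershik

open Function

def uu (k i : ℕ) : ℕ := 4 ^ (k + 1) * (4 * i + 1) - 1
def vv (k i : ℕ) : ℕ := 4 ^ (k + 1) * (4 * i + 3) - 1

def II (l : ℕ) : Finset (ℕ × ℕ) :=
  ((Finset.range l) ×ˢ (Finset.range l)).filter (fun x => vv x.1 x.2 < l)

def gprod (l : ℕ) (z : ℕ → ℤ) : F := ∏ x ∈ II l, gk x.1 (z (uu x.1 x.2) - z (vv x.1 x.2))

def fr (r : ℕ) (ε : Fin r → Bool) (z : ℕ → ℤ) : F :=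
  ∏ i : Fin r, (if ε i then ((z (2 * i) : ℤ) : F) else 1 - ((z (2 * i) : ℤ) : F))

theorem gprod_forb (l : ℕ) (z : ℕ → ℤ) (h : Forb l z) : gprod l z = 0 := by
  obtain ⟨k, s, hs, hk⟩ := h
  unfold C at hs hk
  obtain ⟨L, hL⟩ : ∃ L, L = 4 ^ (k + 1) := ⟨_, rfl⟩
  have hLpos : 0 < L := by rw [hL]; positivity
  have hkL : k < L := by
    rw [hL]
    exact lt_trans (Nat.lt_succ_self k) (Nat.lt_pow_self (by norm_num))
  obtain ⟨q, hq⟩ : ∃ q, q = s / (4 * L) := ⟨_, rfl⟩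
  have h1 : 4 * (L * q) ≤ s := by
    have := Nat.mul_div_le s (4 * L)
    rw [← hq] at this
    nlinarith
  have h2 : s < 4 * (L * q) + 4 * L := by
    have := Nat.lt_mul_div_succ s (show 0 < 4 * L by omega)
    rw [← hq] at this
    nlinarith
  have hu : uu k (q + 1) = 4 * (L * q) + 5 * L - 1 := by
    unfold uu; rw [← hL]; congr 1; ring
  have hv : vv k (q + 1) = 4 * (L * q) + 7 * L - 1 := by
    unfold vv; rw [← hL]; congr 1; ring
  have hqL : q ≤ L * q := Nat.le_mul_of_pos_left q hLpos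
  rw [← hL] at hs hk
  apply Finset.prod_eq_zero (i := (k, q + 1))
  · unfold II
    rw [Finset.mem_filter, Finset.mem_product, Finset.mem_range, Finset.mem_range]
    simp only
    rw [hv]
    omega
  · apply gk_small
    simp only
    apply hk
    · rw [hu]; omega
    · rw [hu]; omega
    · rw [hv]; omega
    · rw [hv]; omega

noncomputable def Phi (r : ℕ) (ε : Fin r → Bool) : Y :=
  ⟨fun l z _ => if l = 2 * r then gprod (2 * r) z * fr r ε z else 0, by
    intro l z m h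
    by_cases hl : l = 2 * r
    · subst hl
      simp only [if_true]
      rw [gprod_forb _ _ h, zero_mul]
    · simp only [if_neg hl]⟩

def evalHom (j : ℕ) : ((ℕ → ℤ) × ℤ) →+ ℤ where
  toFun x := x.1 j
  map_zero' := rfl
  map_add' := by intro x y; rfl

theorem LT_gfac (k a b : ℕ) :
    LT (2 * k + 1 + 1) (fun x : (ℕ → ℤ) × ℤ => gk k (x.1 a - x.1 b)) :=
  LT_comp (evalHom a - evalHom b) _ _ (LT_gk k)

theorem LT_cast : LT 2 (fun x : ℤ => ((x : ℤ) : F)) := by
  apply LT_int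
  have : (fun x : ℤ => ((x + 1 : ℤ) : F) - ((x : ℤ) : F)) = fun _ => (1 : F) := by
    ext x; push_cast; ring
  rw [this]
  exact LT_const 1

theorem LT_frfac (b : Bool) (j : ℕ) :
    LT (1 + 1) (fun x : (ℕ → ℤ) × ℤ => if b then ((x.1 j : ℤ) : F) else 1 - ((x.1 j : ℤ) : F)) := by
  have h := LT_comp (evalHom j) _ _ LT_cast
  cases b with
  | true =>
    simp only [if_true]
    exact h
  | false =>
    have h1 : LT 2 (fun _ : (ℕ → ℤ) × ℤ => (1 : F)) := LT_succ _ _ (LT_const 1)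
    have := LT_sub 2 _ _ h1 h
    simp only [Bool.false_eq_true, if_false]
    exact this

theorem sum_bound (l : ℕ) : ∑ x ∈ II l, (2 * x.1 + 1) ≤ 2 * l := by
  unfold II
  rw [Finset.sum_filter, Finset.sum_product]
  have h1 : ∀ k ∈ Finset.range l,
      ∑ i ∈ Finset.range l, (if vv k i < l then (2 * k + 1) else 0) ≤ l / 2 ^ k := by
    intro k _
    rw [← Finset.sum_filter, Finset.sum_const, smul_eq_mul]
    have hsub : (Finset.range l).filter (fun i => vv k i < l) ⊆ Finset.range (l / 4 ^ (k + 1)) := by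
      intro i hi
      rw [Finset.mem_filter] at hi
      rw [Finset.mem_range]
      have h2 := hi.2
      unfold vv at h2
      have hpos : 0 < 4 ^ (k + 1) := by positivity
      rw [← Nat.succ_le_iff, Nat.le_div_iff_mul_le hpos]
      have : 4 ^ (k + 1) * (4 * i + 3) ≤ l := by omega
      calc (i + 1) * 4 ^ (k + 1) = 4 ^ (k + 1) * (i + 1) := by ring
        _ ≤ 4 ^ (k + 1) * (4 * i + 3) := Nat.mul_le_mul_left _ (by omega)
        _ ≤ l := this
    have hcard := Finset.card_le_card hsub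
    rw [Finset.card_range] at hcard
    have hk2 : 2 * k + 1 ≤ 2 ^ (k + 1) := by
      have : k < 2 ^ k := Nat.lt_two_pow_self
      rw [pow_succ]; omega
    calc _ ≤ (l / 4 ^ (k + 1)) * 2 ^ (k + 1) := Nat.mul_le_mul hcard hk2
      _ = (l / 2 ^ (k + 1) / 2 ^ (k + 1)) * 2 ^ (k + 1) := by
          rw [Nat.div_div_eq_div_mul, ← mul_pow]; norm_num
      _ ≤ l / 2 ^ (k + 1) := Nat.div_mul_le_self _ _
      _ ≤ l / 2 ^ k := Nat.div_le_div_left (Nat.pow_le_pow_right (by norm_num) (by omega))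
            (by positivity)
  calc _ ≤ ∑ k ∈ Finset.range l, l / 2 ^ k := Finset.sum_le_sum h1
    _ ≤ l * 2 / (2 - 1) := Nat.geom_sum_le (le_refl 2) l l
    _ = 2 * l := by omega

theorem Phi_mem (r : ℕ) (ε : Fin r → Bool) : Phi r ε ∈ P (7 * r + 1) := by
  apply type_mem (7 * r + 1) (Phi r ε) (2 * r) (5 * r + 1) (by omega)
  · intro l' hl' z m
    show (if l' = 2 * r then gprod (2 * r) z * fr r ε z else 0) = 0
    rw [if_neg hl']
  · have e : (fun x : (ℕ → ℤ) × ℤ => (Phi r ε).1 (2 * r) x.1 x.2)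
        = (fun x => (fun x : (ℕ → ℤ) × ℤ => gprod (2 * r) x.1) x
            * (fun x : (ℕ → ℤ) × ℤ => fr r ε x.1) x) := by
      funext x
      show (if 2 * r = 2 * r then gprod (2 * r) x.1 * fr r ε x.1 else 0) = _
      rw [if_pos rfl]
    rw [e]
    have h1 : LT ((∑ x ∈ II (2 * r), (2 * x.1 + 1)) + 1)
        (fun x : (ℕ → ℤ) × ℤ => gprod (2 * r) x.1) :=
      LT_prod (II (2 * r)) (fun x => 2 * x.1 + 1)
        (fun y (x : (ℕ → ℤ) × ℤ) => gk y.1 (x.1 (uu y.1 y.2) - x.1 (vv y.1 y.2)))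
        (fun y _ => LT_gfac y.1 _ _)
    have h2 : LT ((∑ _i : Fin r, 1) + 1) (fun x : (ℕ → ℤ) × ℤ => fr r ε x.1) :=
      LT_prod Finset.univ (fun _ => 1)
        (fun (i : Fin r) (x : (ℕ → ℤ) × ℤ) =>
          if ε i then ((x.1 (2 * i) : ℤ) : F) else 1 - ((x.1 (2 * i) : ℤ) : F))
        (fun i _ => LT_frfac (ε i) _)
    have h3 := LT_mul _ _ _ rfl _ _ h1 h2
    refine LT_mono ?_ h3
    have := sum_bound (2 * r)
    simp only [Finset.sum_const, Finset.card_univ, Fintype.card_fin, smul_eq_mul, mul_one]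
    omega

theorem uu_inj (k i k' i' : ℕ) (h : uu k i = uu k' i') : k = k' := by
  have hp : ∀ n : ℕ, 0 < 4 ^ (n + 1) := fun n => by positivity
  have h1 : 4 ^ (k + 1) * (4 * i + 1) = 4 ^ (k' + 1) * (4 * i' + 1) := by
    unfold uu at h
    have a1 : 0 < 4 ^ (k + 1) * (4 * i + 1) := Nat.mul_pos (hp k) (by omega)
    have a2 : 0 < 4 ^ (k' + 1) * (4 * i' + 1) := Nat.mul_pos (hp k') (by omega)
    omega
  rcases lt_trichotomy k k' with hlt | heq | hgt
  · exfalso
    obtain ⟨d, rfl⟩ : ∃ d, k' = k + 1 + d := ⟨k' - (k + 1), by omega⟩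
    have : 4 ^ (k + 1 + d + 1) = 4 ^ (k + 1) * (4 * 4 ^ d) := by ring
    rw [this, mul_assoc] at h1
    have h2 := Nat.eq_of_mul_eq_mul_left (hp k) h1
    have h3 : 4 * 4 ^ d * (4 * i' + 1) = 4 * (4 ^ d * (4 * i' + 1)) := by ring
    omega
  · exact heq
  · exfalso
    obtain ⟨d, rfl⟩ : ∃ d, k = k' + 1 + d := ⟨k - (k' + 1), by omega⟩
    have : 4 ^ (k' + 1 + d + 1) = 4 ^ (k' + 1) * (4 * 4 ^ d) := by ring
    rw [this, mul_assoc] at h1
    have h2 := Nat.eq_of_mul_eq_mul_left (hp k') h1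
    have h3 : 4 * 4 ^ d * (4 * i + 1) = 4 * (4 ^ d * (4 * i + 1)) := by ring
    omega

theorem vv_ne_uu (k i k' i' : ℕ) (h : vv k i = uu k' i') : False := by
  have hp : ∀ n : ℕ, 0 < 4 ^ (n + 1) := fun n => by positivity
  have h1 : 4 ^ (k + 1) * (4 * i + 3) = 4 ^ (k' + 1) * (4 * i' + 1) := by
    unfold uu vv at h
    have a1 : 0 < 4 ^ (k + 1) * (4 * i + 3) := Nat.mul_pos (hp k) (by omega)
    have a2 : 0 < 4 ^ (k' + 1) * (4 * i' + 1) := Nat.mul_pos (hp k') (by omega)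
    omega
  rcases lt_trichotomy k k' with hlt | heq | hgt
  · obtain ⟨d, rfl⟩ : ∃ d, k' = k + 1 + d := ⟨k' - (k + 1), by omega⟩
    have : 4 ^ (k + 1 + d + 1) = 4 ^ (k + 1) * (4 * 4 ^ d) := by ring
    rw [this, mul_assoc] at h1
    have h2 := Nat.eq_of_mul_eq_mul_left (hp k) h1
    have h3 : 4 * 4 ^ d * (4 * i' + 1) = 4 * (4 ^ d * (4 * i' + 1)) := by ring
    omega
  · subst heq
    have h2 := Nat.eq_of_mul_eq_mul_left (hp k) h1
    omega
  · obtain ⟨d, rfl⟩ : ∃ d, k = k' + 1 + d := ⟨k - (k' + 1), by omega⟩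
    have : 4 ^ (k' + 1 + d + 1) = 4 ^ (k' + 1) * (4 * 4 ^ d) := by ring
    rw [this, mul_assoc] at h1
    have h2 := Nat.eq_of_mul_eq_mul_left (hp k') h1
    have h3 : 4 * 4 ^ d * (4 * i + 3) = 4 * (4 ^ d * (4 * i + 3)) := by ring
    omega

theorem uu_odd (k i : ℕ) : uu k i % 2 = 1 := by
  unfold uu
  have : 4 ^ (k + 1) * (4 * i + 1) = 2 * (2 * 4 ^ k * (4 * i + 1)) := by ring
  have h2 : 0 < 4 ^ k * (4 * i + 1) := Nat.mul_pos (by positivity) (by omega)
  have h3 : 2 * 4 ^ k * (4 * i + 1) = 2 * (4 ^ k * (4 * i + 1)) := by ring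
  omega

theorem vv_odd (k i : ℕ) : vv k i % 2 = 1 := by
  unfold vv
  have : 4 ^ (k + 1) * (4 * i + 3) = 2 * (2 * 4 ^ k * (4 * i + 3)) := by ring
  have h2 : 0 < 4 ^ k * (4 * i + 3) := Nat.mul_pos (by positivity) (by omega)
  have h3 : 2 * 4 ^ k * (4 * i + 3) = 2 * (4 ^ k * (4 * i + 3)) := by ring
  omega

theorem uu_lt_vv (k i : ℕ) : uu k i < vv k i := by
  unfold uu vv
  have h1 : 0 < 4 ^ (k + 1) := by positivity
  have h2 : 4 ^ (k + 1) * (4 * i + 3) = 4 ^ (k + 1) * (4 * i + 1) + 2 * 4 ^ (k + 1) := by ring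
  have h3 : 0 < 4 ^ (k + 1) * (4 * i + 1) := Nat.mul_pos h1 (by omega)
  omega

open Classical in
noncomputable def Wz (j : ℕ) : ℤ :=
  if h : ∃ k, ∃ i, j = uu k i then (h.choose : ℤ) + 1 else 0

theorem Wz_uu (k i : ℕ) : Wz (uu k i) = k + 1 := by
  unfold Wz
  have h : ∃ k', ∃ i', uu k i = uu k' i' := ⟨k, i, rfl⟩
  rw [dif_pos h]
  obtain ⟨i', hi'⟩ := h.choose_spec
  rw [← uu_inj _ _ _ _ hi']

theorem Wz_vv (k i : ℕ) : Wz (vv k i) = 0 := by
  unfold Wz
  rw [dif_neg]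
  rintro ⟨k', i', h⟩
  exact vv_ne_uu _ _ _ _ h

open Classical in
noncomputable def zz (r : ℕ) (δ : Fin r → Bool) (j : ℕ) : ℤ :=
  if j % 2 = 0 then (if h : j / 2 < r then (if δ ⟨j / 2, h⟩ then 1 else 0) else 0) else Wz j

noncomputable def zt (r : ℕ) (δ : Fin r → Bool) (j : ℕ) : ℤ :=
  if j < 2 * r then zz r δ j else 0

theorem gprod_zt (r : ℕ) (δ : Fin r → Bool) : gprod (2 * r) (zt r δ) = 1 := by
  unfold gprod
  apply Finset.prod_eq_one
  rintro ⟨k, i⟩ hx
  unfold II at hx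
  rw [Finset.mem_filter] at hx
  have h1 : vv k i < 2 * r := hx.2
  have h2 := uu_lt_vv k i
  show gk k (zt r δ (uu k i) - zt r δ (vv k i)) = 1
  unfold zt zz
  rw [if_pos (by omega), if_pos h1, if_neg (by rw [uu_odd]; norm_num),
    if_neg (by rw [vv_odd]; norm_num), Wz_uu, Wz_vv, sub_zero, gk_one]

theorem fr_zt (r : ℕ) (ε δ : Fin r → Bool) : fr r ε (zt r δ) = if ε = δ then 1 else 0 := by
  have hval : ∀ i : Fin r, zt r δ (2 * i) = if δ i then 1 else 0 := by
    intro i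
    have hi := i.2
    unfold zt zz
    rw [if_pos (by omega), if_pos (by omega)]
    have h2 : 2 * (i : ℕ) / 2 = i := by omega
    rw [dif_pos (by omega)]
    congr 2
    · simp [h2]
  unfold fr
  by_cases h : ε = δ
  · subst h
    rw [if_pos rfl]
    apply Finset.prod_eq_one
    intro i _
    rw [hval]
    cases ε i <;> simp
  · rw [if_neg h]
    obtain ⟨i, hi⟩ := Function.ne_iff.1 h
    apply Finset.prod_eq_zero (Finset.mem_univ i)
    rw [hval]
    cases h1 : ε i <;> cases h2 : δ i <;> simp_all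

noncomputable def AG (i : ℤ) : G := ⟨A i, A_mem i⟩

noncomputable def fw (w : List ℤ) : MonoidAlgebra F G :=
  (w.map (fun i => MonoidAlgebra.of F G (AG i) - 1)).prod

theorem rho_fw (w : List ℤ) : rho (fw w) = Xw w := by
  unfold fw Xw
  rw [map_list_prod, List.map_map]
  congr 1
  apply List.map_congr_left
  intro i _
  show rho (MonoidAlgebra.of F G (AG i) - 1) = X i
  rw [map_sub, map_one, rho_of]
  show (A i : E) - 1 = X i
  rw [A_coe]; abel

noncomputable def word (r : ℕ) (δ : Fin r → Bool) : List ℤ :=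
  List.ofFn (fun j : Fin (2 * r) => zz r δ j)

theorem upd_word (r : ℕ) (δ : Fin r → Bool) : upd 0 0 0 (word r δ) = zt r δ := by
  funext j
  rw [upd_apply]
  unfold zt word
  simp only [List.length_ofFn, zero_add, Nat.zero_le, true_and, Nat.sub_zero, Pi.zero_apply]
  by_cases h : j < 2 * r
  · rw [if_pos h, if_pos h, List.getD_eq_getElem _ _ (by simpa using h)]
    simp
  · rw [if_neg h, if_neg h]

theorem pairing (r : ℕ) (ε δ : Fin r → Bool) :
    (rho (fw (word r δ)) (Phi r ε)).1 0 0 0 = if ε = δ then 1 else 0 := by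
  rw [rho_fw, Xw_apply, upd_word]
  have : 0 + (word r δ).length = 2 * r := by simp [word]
  rw [this]
  show (if 2 * r = 2 * r then gprod (2 * r) (zt r δ) * fr r ε (zt r δ) else 0) = _
  rw [if_pos rfl, gprod_zt, fr_zt, one_mul]

theorem indep (r n : ℕ) (hrn : 7 * r ≤ n) :
    LinearIndependent F (fun δ : Fin r → Bool => ((Mid F G) ^ (n + 1)).mkQ (fw (word r δ))) := by
  rw [Fintype.linearIndependent_iff]
  intro c hc ε
  have h1 : ∑ δ, c δ • fw (word r δ) ∈ (Mid F G) ^ (n + 1) := by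
    rw [← Submodule.Quotient.mk_eq_zero, ← Submodule.mkQ_apply, map_sum]
    simpa using hc
  have h2 := Mid_pow_kill (n + 1) _ h1 0 (Phi r ε) (P_mono (by omega) (Phi_mem r ε))
  have h3 : rho (∑ δ, c δ • fw (word r δ)) (Phi r ε) = 0 := (Submodule.mem_bot F).1 h2
  have h4 : (rho (∑ δ, c δ • fw (word r δ)) (Phi r ε)).1 0 0 0
      = ∑ δ, c δ * (rho (fw (word r δ)) (Phi r ε)).1 0 0 0 := by
    rw [map_sum, LinearMap.sum_apply]
    simp only [map_smul, LinearMap.smul_apply]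
    rw [Submodule.coe_sum]
    simp only [Finset.sum_apply]
    rfl
  rw [h3] at h4
  simp only [pairing] at h4
  rw [Finset.sum_eq_single ε] at h4
  · simpa using h4.symm
  · intro δ _ hδ
    rw [if_neg (Ne.symm hδ), mul_zero]
  · intro h; exact absurd (Finset.mem_univ ε) h

theorem G_closure : ∃ S : Finset G, Subgroup.closure (S : Set G) = ⊤ := by
  obtain ⟨S, hS⟩ := G_fg.out
  exact ⟨S, hS⟩

theorem finrank_bound (n : ℕ) :
    2 ^ (n / 7) ≤ Module.finrank F (MonoidAlgebra F G ⧸ (Mid F G) ^ (n + 1)) := by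
  obtain ⟨S, hS⟩ := G_closure
  have := finite_quot (k := F) S hS n
  have h := (indep (n / 7) n (Nat.mul_div_le n 7)).fintype_card_le_finrank
  simpa using h

end Pool.H134R3.Vershik
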